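import Pool.Agent.E8helper42.AZ.Stm5
import Pool.Agent.E8helper71.AZ.Ide

/-!
# Project AZ: the ideal lemma for two families
-/

set_option autoImplicit false
set_option linter.unusedSectionVars false

namespace Pool.Agent.E8helper75.AZ

open MvPolynomial Pool.Agent.E8helper42.AZ Pool.Agent.E8helper71.AZ

section pad

variable {S : Type} [Zero S] [One S] {m n : ℕ}

lemma padM_zero : padM n (0 : Matrix (Fin m) (Fin m) S) = 0 := by
  ext a b
  simp [padM]

lemma padV_zero : padV n (0 : Fin m → S) = 0 := by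
  ext a
  simp [padV]

lemma padV_single (a : Fin n) (ha : (a : ℕ) < m) (s : S) :
    padV n (Pi.single (⟨a, ha⟩ : Fin m) s) = Pi.single a s := by
  ext b
  by_cases hb : b = a
  · subst hb
    simp [padV, ha]
  · simp only [padV, Pi.single_eq_of_ne hb]
    split_ifs with h
    · rw [Pi.single_eq_of_ne]
      intro h2
      exact hb (Fin.ext (by simpa using congrArg (fun x : Fin m => (x : ℕ)) h2))
    · rfl

lemma padM_single (a b : Fin n) (ha : (a : ℕ) < m) (hb : (b : ℕ) < m) (s : S) :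
    padM n (Matrix.single (⟨a, ha⟩ : Fin m) ⟨b, hb⟩ s) = Matrix.single a b s := by
  ext c d
  simp only [padM, Matrix.of_apply, Matrix.single_apply]
  split_ifs with h1 h2 h3 h4 h5
  · rfl
  · exact absurd ⟨Fin.ext (by simpa using congrArg (fun x : Fin m => (x : ℕ)) h2.1),
      Fin.ext (by simpa using congrArg (fun x : Fin m => (x : ℕ)) h2.2)⟩ h3
  · exact absurd ⟨Fin.ext (by simpa using congrArg (fun x : Fin n => (x : ℕ)) h4.1),
      Fin.ext (by simpa using congrArg (fun x : Fin n => (x : ℕ)) h4.2)⟩ h2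
  · rfl
  · exfalso
    apply h1
    rw [← h5.1, ← h5.2]
    exact ⟨ha, hb⟩
  · rfl

end pad

lemma fam_case {κ F : Type} [Fintype κ] [DecidableEq κ] {n : ℕ} [Field F] [CharZero F]
    {p : Ideal (MvPolynomial (Vr κ n) F)} (hp : p.IsPrime) {P : MvPolynomial (Vr κ n) F}
    (hz : ∀ v, pderiv v P ∈ p → pderiv v P = 0) (k : κ) (N : ℕ)
    (hDY : ∀ a : Fin n, (a : ℕ) < N →
      Del (ι := κ) (n := n) (S := F) (fun j => (0, if j = k then Pi.single a 1 else 0)) P ∈ p)
    (hDX : ∀ a b : Fin n, (a : ℕ) < N → (b : ℕ) < N → a ≠ b →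
      Del (ι := κ) (n := n) (S := F) (fun j => (if j = k then Matrix.single a b 1 else 0, 0)) P ∈ p)
    (hX : ∃ c c' : Fin n, (c : ℕ) < N ∧ (c' : ℕ) < N ∧ c ≠ c' ∧ X (Sum.inl (k, c)) ∉ p ∧
      X (Sum.inl (k, c')) ∉ p) (a : Fin n) (ha : (a : ℕ) < N) :
    pderiv (Sum.inl (k, a)) P = 0 ∧ pderiv (Sum.inr (k, a)) P = 0 := by
  have hY : pderiv (Sum.inr (k, a)) P = 0 := by
    apply hz
    have h1 := hDY a ha
    rwa [del_Y] at h1
  refine ⟨?_, hY⟩
  apply hz
  obtain ⟨b, hbN, hba, hb⟩ : ∃ b : Fin n, (b : ℕ) < N ∧ b ≠ a ∧ X (Sum.inl (k, b)) ∉ p := by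
    obtain ⟨c, c', hc, hc', hcc, h1, h2⟩ := hX
    by_cases h : c = a
    · exact ⟨c', hc', fun h' => hcc (h.trans h'.symm), h2⟩
    · exact ⟨c, hc, h, h1⟩
  have h1 := hDX a b ha hbN hba.symm
  rw [del_X, Derivation.add_apply, Derivation.smul_apply, Derivation.smul_apply, hY, smul_zero,
    add_zero, smul_eq_mul] at h1
  exact (hp.mem_or_mem h1).resolve_left hb

/-- IDM -/
theorem t_IDM : S_IDM := by
  intro ι₁ ι₂ _ _ _ _ n n₁ n₂ F _ _ c₀ p hp _ _ hX₁ hX₂ hD P₀ hP₀ hP₀0 hP₀v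
  classical
  set A : Set (Vr (Option (ι₁ ⊕ ι₂)) n) := {v | v = Sum.inl (none, c₀) ∨
    (∃ (i : ι₁) (c : Fin n), (c : ℕ) < n₁ ∧ (v = Sum.inl (some (Sum.inl i), c) ∨
      v = Sum.inr (some (Sum.inl i), c))) ∨
    ∃ (i : ι₂) (c : Fin n), (c : ℕ) < n₂ ∧ (v = Sum.inl (some (Sum.inr i), c) ∨
      v = Sum.inr (some (Sum.inr i), c))} with hA
  obtain ⟨P, ⟨hPp, hP0, hPv⟩, hmin⟩ : ∃ P, (P ∈ p ∧ P ≠ 0 ∧ ∀ v ∈ P.vars, v ∈ A) ∧
      ∀ Q, Q ∈ p → Q ≠ 0 → (∀ v ∈ Q.vars, v ∈ A) → P.totalDegree ≤ Q.totalDegree := by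
    have hwf := exists_minimalFor_of_wellFoundedLT
      (fun P : MvPolynomial (Vr (Option (ι₁ ⊕ ι₂)) n) F => P ∈ p ∧ P ≠ 0 ∧ ∀ v ∈ P.vars, v ∈ A)
      (fun P => P.totalDegree) ⟨P₀, hP₀, hP₀0, hP₀v⟩
    obtain ⟨P, hP⟩ := hwf
    refine ⟨P, hP.1, fun Q h1 h2 h3 => ?_⟩
    by_contra hlt
    push Not at hlt
    exact absurd (hP.2 ⟨h1, h2, h3⟩ hlt.le) (not_le.mpr hlt)
  have hz : ∀ v : Vr (Option (ι₁ ⊕ ι₂)) n, pderiv v P ∈ p → pderiv v P = 0 := by
    intro v hv
    by_contra h0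
    exact absurd (hmin _ hv h0 fun w hw => hPv w (vars_pderiv v w P hw))
      (not_le.mpr (deg_pderiv v P h0))
  have e1Y : ∀ (i : ι₁) (a : Fin n), (a : ℕ) < n₁ → Del (ι := Option (ι₁ ⊕ ι₂)) (n := n) (S := F)
      (fun j => (0, if j = some (Sum.inl i) then Pi.single a 1 else 0)) P ∈ p := by
    intro i a ha
    have h1 := hD (fun j => (0, if j = i then Pi.single ⟨a, ha⟩ 1 else 0)) (fun _ => (0, 0))
      (fun j => by simp) (fun j => by simp) P hPp
    convert h1 using 3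
    funext j
    rcases j with _ | j | j
    · simp [padA]
    · by_cases hj : j = i
      · subst hj
        simp [padA, padM_zero, padV_single a ha]
      · simp [padA, padM_zero, padV_zero, hj]
    · simp [padA, padM_zero, padV_zero]
  have e1X : ∀ (i : ι₁) (a b : Fin n), (a : ℕ) < n₁ → (b : ℕ) < n₁ → a ≠ b →
      Del (ι := Option (ι₁ ⊕ ι₂)) (n := n) (S := F)
      (fun j => (if j = some (Sum.inl i) then Matrix.single a b 1 else 0, 0)) P ∈ p := by
    intro i a b ha hb hab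
    have h1 := hD (fun j => (if j = i then Matrix.single ⟨a, ha⟩ ⟨b, hb⟩ 1 else 0, 0))
      (fun _ => (0, 0)) (fun j => by
        by_cases hj : j = i
        · simp only [hj, if_true]
          exact Matrix.trace_single_eq_of_ne _ _ 1 (fun h => hab (Fin.ext (by simpa using congrArg (fun x : Fin _ => (x : ℕ)) h)))
        · simp [hj]) (fun j => by simp) P hPp
    convert h1 using 3
    funext j
    rcases j with _ | j | j
    · simp [padA]
    · by_cases hj : j = i
      · subst hj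
        simp [padA, padV_zero, padM_single a b ha hb]
      · simp [padA, padM_zero, padV_zero, hj]
    · simp [padA, padM_zero, padV_zero]
  have e2Y : ∀ (i : ι₂) (a : Fin n), (a : ℕ) < n₂ → Del (ι := Option (ι₁ ⊕ ι₂)) (n := n) (S := F)
      (fun j => (0, if j = some (Sum.inr i) then Pi.single a 1 else 0)) P ∈ p := by
    intro i a ha
    have h1 := hD (fun _ => (0, 0)) (fun j => (0, if j = i then Pi.single ⟨a, ha⟩ 1 else 0))
      (fun j => by simp) (fun j => by simp) P hPp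
    convert h1 using 3
    funext j
    rcases j with _ | j | j
    · simp [padA]
    · simp [padA, padM_zero, padV_zero]
    · by_cases hj : j = i
      · subst hj
        simp [padA, padM_zero, padV_single a ha]
      · simp [padA, padM_zero, padV_zero, hj]
  have e2X : ∀ (i : ι₂) (a b : Fin n), (a : ℕ) < n₂ → (b : ℕ) < n₂ → a ≠ b →
      Del (ι := Option (ι₁ ⊕ ι₂)) (n := n) (S := F)
      (fun j => (if j = some (Sum.inr i) then Matrix.single a b 1 else 0, 0)) P ∈ p := by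
    intro i a b ha hb hab
    have h1 := hD (fun _ => (0, 0)) (fun j => (if j = i then Matrix.single ⟨a, ha⟩ ⟨b, hb⟩ 1 else 0, 0))
      (fun j => by simp) (fun j => by
        by_cases hj : j = i
        · simp only [hj, if_true]
          exact Matrix.trace_single_eq_of_ne _ _ 1 (fun h => hab (Fin.ext (by simpa using congrArg (fun x : Fin _ => (x : ℕ)) h)))
        · simp [hj]) P hPp
    convert h1 using 3
    funext j
    rcases j with _ | j | j
    · simp [padA]
    · simp [padA, padM_zero, padV_zero]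
    · by_cases hj : j = i
      · subst hj
        simp [padA, padV_zero, padM_single a b ha hb]
      · simp [padA, padM_zero, padV_zero, hj]
  have k1 : ∀ (i : ι₁) (a : Fin n), (a : ℕ) < n₁ →
      pderiv (Sum.inl (some (Sum.inl i), a)) P = 0 ∧ pderiv (Sum.inr (some (Sum.inl i), a)) P = 0 :=
    fun i => fam_case hp hz (some (Sum.inl i)) n₁ (e1Y i) (e1X i) (hX₁ i)
  have k2 : ∀ (i : ι₂) (a : Fin n), (a : ℕ) < n₂ →
      pderiv (Sum.inl (some (Sum.inr i), a)) P = 0 ∧ pderiv (Sum.inr (some (Sum.inr i), a)) P = 0 :=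
    fun i => fam_case hp hz (some (Sum.inr i)) n₂ (e2Y i) (e2X i) (hX₂ i)
  have hv : ∀ v ∈ P.vars, v = Sum.inl (none, c₀) := by
    intro v hv
    rcases hPv v hv with h | ⟨i, c, hc, h | h⟩ | ⟨i, c, hc, h | h⟩
    · exact h
    · exact absurd (k1 i c hc).1 (h ▸ pderiv_ne v P hv)
    · exact absurd (k1 i c hc).2 (h ▸ pderiv_ne v P hv)
    · exact absurd (k2 i c hc).1 (h ▸ pderiv_ne v P hv)
    · exact absurd (k2 i c hc).2 (h ▸ pderiv_ne v P hv)
  have h1 : P ∈ Algebra.adjoin F {(X (Sum.inl (none, c₀)) :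
      MvPolynomial (Vr (Option (ι₁ ⊕ ι₂)) n) F)} := by
    have h2 : P ∈ supported F ({Sum.inl (none, c₀)} : Set (Vr (Option (ι₁ ⊕ ι₂)) n)) := by
      rw [mem_supported]
      intro v hv'
      exact hv v (Finset.mem_coe.mp hv')
    rw [supported_eq_adjoin_X, Set.image_singleton] at h2
    exact h2
  rw [Algebra.adjoin_singleton_eq_range_aeval] at h1
  obtain ⟨q, hq⟩ := h1
  refine ⟨q, ?_, ?_⟩
  · rintro rfl
    apply hP0
    rw [← hq]
    simp
  · have h3 : Polynomial.aeval (X (Sum.inl (none, c₀)) :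
        MvPolynomial (Vr (Option (ι₁ ⊕ ι₂)) n) F) q = P := hq
    rw [h3]
    exact hPp

end Pool.Agent.E8helper75.AZ
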