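import Pool.Agent.E8helper75.AZ.Sse

/-!
# The theorem of Siegel and Shidlovskii for the functions for `ζ(2)` and the exponential function
-/

set_option autoImplicit false
set_option linter.unusedSectionVars false

open PowerSeries Finset.HasAntidiagonal

namespace Pool.Agent.E8helper75.AZ

open Pool.Agent.R352.E Pool.Agent.Y113 Pool.Agent.E8helper42.AZ Pool.Agent.E8helper65.AZ

/-- the recurrence, in terms of the series -/
lemma ser_three (c : ℕ → ℚ) (t e : ℚ)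
    (hrec : ∀ n : ℕ, ((n : ℚ) + 2) ^ 2 * c (n + 2) + (11 * ((n : ℚ) + 1) ^ 2 + 11 * ((n : ℚ) + 1) + 3) * c (n + 1) -
      ((n : ℚ) + 1) ^ 2 * c n = 0)
    (he : c 1 = -3 * c 0 + e) :
    ser c t 3 = -(C t * (X * (11 * ser c t 2 + 11 * ser c t 1 + 3 * ser c t 0))) +
      C (t ^ 2) * (X * (X * (ser c t 1 + ser c t 0))) + C (e * t) * X := by
  have hnat : ∀ (n : ℕ) (g : ℚ⟦X⟧) (m : ℕ), coeff m ((n : ℚ⟦X⟧) * g) = (n : ℚ) * coeff m g := by
    intro n g m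
    rw [← nsmul_eq_mul, map_nsmul, nsmul_eq_mul]
  have h11 : ∀ (g : ℚ⟦X⟧) (m : ℕ), coeff m (11 * g) = 11 * coeff m g := fun g m => by
    simpa using hnat 11 g m
  have h3 : ∀ (g : ℚ⟦X⟧) (m : ℕ), coeff m (3 * g) = 3 * coeff m g := fun g m => by
    simpa using hnat 3 g m
  ext m
  rcases m with _ | m
  · simp [ser]
  rcases m with _ | m
  · rw [map_add, map_add, map_neg, coeff_C_mul, coeff_C_mul, coeff_C_mul, zero_add, coeff_one_X]
    have e1 : ∀ g : ℚ⟦X⟧, coeff 1 (X * g) = coeff 0 g := fun g => coeff_succ_X_mul 0 g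
    rw [e1, e1, map_add, map_add, h11, h11, h3]
    have e2 : ∀ g : ℚ⟦X⟧, coeff 0 (X * g) = 0 := fun g => by simp
    rw [e2]
    simp only [ser, coeff_mk]
    rw [he]
    simp
    ring
  · have hX : coeff (m + 1 + 1) (X : ℚ⟦X⟧) = 0 := by
      rw [coeff_X, if_neg (by omega)]
    rw [map_add, map_add, map_neg, coeff_C_mul, coeff_C_mul, coeff_C_mul, hX, coeff_succ_X_mul,
      coeff_succ_X_mul, coeff_succ_X_mul, map_add, map_add, map_add, h11, h11, h3]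
    simp only [ser, coeff_mk]
    have hr := hrec m
    have hf1 : (((m + 1).factorial : ℕ) : ℚ) = (m + 1) * m.factorial := by
      rw [Nat.factorial_succ]; push_cast; ring
    have hf2 : (((m + 1 + 1).factorial : ℕ) : ℚ) = (m + 2) * ((m + 1) * m.factorial) := by
      rw [Nat.factorial_succ, Nat.factorial_succ]; push_cast; ring
    rw [hf1, hf2]
    have hf0 : (m.factorial : ℚ) ≠ 0 := by exact_mod_cast m.factorial_ne_zero
    have hm1 : (m : ℚ) + 1 ≠ 0 := by positivity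
    have hm2 : (m : ℚ) + 2 ≠ 0 := by positivity
    push_cast
    have hr2 : ((m : ℚ) + 1 + 1) ^ 3 * c (m + 1 + 1) = ((m : ℚ) + 2) *
        (-(11 * ((m : ℚ) + 1) ^ 2 + 11 * ((m : ℚ) + 1) + 3) * c (m + 1) + ((m : ℚ) + 1) ^ 2 * c m) := by
      linear_combination ((m : ℚ) + 2) * hr
    rw [hr2]
    field_simp
    ring

/-- the system of the project -/
lemma syst_fam3 {a b : ℕ → ℚ} (hab : AperyPair2 a b) (ha : EFc a) (hb : EFc b) (T : Finset ℚ) :
    ∃ q : ℕ, Syst q (fam3 a b T) := by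
  classical
  obtain ⟨q, hq⟩ : ∃ q : ℕ, q = (∏ t ∈ T, t.den) ^ 2 := ⟨_, rfl⟩
  have hP : 0 < ∏ t ∈ T, t.den := Finset.prod_pos fun t _ => t.den_pos
  have hq1 : 1 ≤ q := by rw [hq]; exact Nat.pos_of_ne_zero (pow_ne_zero _ hP.ne')
  -- integrality
  have hint1 : ∀ t ∈ T, ∃ z : ℤ, (q : ℚ) * t = z := by
    intro t ht
    refine ⟨(∏ t ∈ T, t.den : ℕ) * ((∏ s ∈ T.erase t, s.den : ℕ) * t.num), ?_⟩
    have h1 : (∏ s ∈ T, s.den : ℕ) = t.den * ∏ s ∈ T.erase t, s.den :=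
      (Finset.mul_prod_erase T (fun s => s.den) ht).symm
    rw [hq]
    push_cast
    rw [sq]
    have h2 : ((∏ s ∈ T, (s.den : ℚ))) * t = (∏ s ∈ T.erase t, (s.den : ℚ)) * t.num := by
      have h3 : (∏ s ∈ T, (s.den : ℚ)) = t.den * ∏ s ∈ T.erase t, (s.den : ℚ) := by
        exact_mod_cast congrArg (Nat.cast (R := ℚ)) h1
      rw [h3]
      have h4 : (t.den : ℚ) * t = t.num := Rat.den_mul_eq_num t
      rw [← h4]; ring
    rw [mul_assoc, h2]
  have hint2 : ∀ t ∈ T, ∃ z : ℤ, (q : ℚ) * t ^ 2 = z := by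
    intro t ht
    refine ⟨((∏ s ∈ T.erase t, s.den : ℕ) * t.num) ^ 2, ?_⟩
    have h1 : (∏ s ∈ T, s.den : ℕ) = t.den * ∏ s ∈ T.erase t, s.den :=
      (Finset.mul_prod_erase T (fun s => s.den) ht).symm
    have h2 : ((∏ s ∈ T, (s.den : ℚ))) * t = (∏ s ∈ T.erase t, (s.den : ℚ)) * t.num := by
      have h3 : (∏ s ∈ T, (s.den : ℚ)) = t.den * ∏ s ∈ T.erase t, (s.den : ℚ) := by
        exact_mod_cast congrArg (Nat.cast (R := ℚ)) h1
      rw [h3]
      have h4 : (t.den : ℚ) * t = t.num := Rat.den_mul_eq_num t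
      rw [← h4]; ring
    rw [hq]
    push_cast
    rw [← mul_pow, h2]
  have hTQ : ∀ g : ℚ⟦X⟧, (TQ q : ℚ⟦X⟧) * d⁄dX ℚ g = C (q : ℚ) * (X * d⁄dX ℚ g) := by
    intro g
    have h1 : (TQ q : ℚ⟦X⟧) = (q : ℚ⟦X⟧) * X := TQ_eq
    rw [h1, mul_assoc]
    congr 1
  set y : Option ((T × Fin 3) ⊕ (T × Fin 3)) → ℚ⟦X⟧ := fun o => o.elim 1 (fam3 a b T) with hy
  have hy1 : Sp y 1 := Sp.mem (y := y) none
  have hya : ∀ (t : T) (j : Fin 3), Sp y (ser a t j) := fun t j =>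
    Sp.mem (y := y) (some (Sum.inl (t, j)))
  have hyb : ∀ (t : T) (j : Fin 3), Sp y (ser b t j) := fun t j =>
    Sp.mem (y := y) (some (Sum.inr (t, j)))
  -- the last derivative
  have hlast : ∀ (c : ℕ → ℚ) (t : T) (e : ℤ), (∀ j : Fin 3, Sp y (ser c t j)) →
      (∀ n : ℕ, ((n : ℚ) + 2) ^ 2 * c (n + 2) + (11 * ((n : ℚ) + 1) ^ 2 + 11 * ((n : ℚ) + 1) + 3) * c (n + 1) -
        ((n : ℚ) + 1) ^ 2 * c n = 0) →
      c 1 = -3 * c 0 + e → Sp y (C (q : ℚ) * ser c t 3) := by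
    intro c t e hs hrec he
    obtain ⟨z1, hz1⟩ := hint1 t.1 t.2
    obtain ⟨z2, hz2⟩ := hint2 t.1 t.2
    have hN : ∀ (n : ℕ) {g : ℚ⟦X⟧}, Sp y g → Sp y ((n : ℚ⟦X⟧) * g) := by
      intro n g hg
      have h := Sp.int (n : ℤ) (u := (n : ℚ)) (by push_cast; rfl) hg
      have e : (PowerSeries.C (n : ℚ) : ℚ⟦X⟧) = (n : ℚ⟦X⟧) := by simp
      rwa [e] at h
    have hs0 := hs 0
    have hs1 := hs 1
    have hs2 := hs 2
    have e1 : Sp y (11 * ser c t 2 + 11 * ser c t 1 + 3 * ser c t 0) := by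
      have k2 := hN 11 hs2
      have k1 := hN 11 hs1
      have k0 := hN 3 hs0
      exact_mod_cast (k2.add k1).add k0
    have e2 : Sp y (ser c t 1 + ser c t 0) := hs1.add hs0
    have e3 : C (q : ℚ) * ser c t 3 =
        C (-((q : ℚ) * t)) * (X * (11 * ser c t 2 + 11 * ser c t 1 + 3 * ser c t 0)) +
        C ((q : ℚ) * (t : ℚ) ^ 2) * (X * (X * (ser c t 1 + ser c t 0))) +
        C ((e : ℚ) * ((q : ℚ) * t)) * (X * 1) := by
      rw [ser_three c t e hrec he]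
      simp only [map_mul, map_neg, map_pow]
      ring
    rw [e3]
    refine ((Sp.int (-z1) (by rw [hz1]; push_cast; ring) (Sp.X e1)).add (Sp.int z2 hz2
      (Sp.X (Sp.X e2)))).add (Sp.int (e * z1) (by rw [hz1]; push_cast; ring) (Sp.X hy1))
  have hder : ∀ (c : ℕ → ℚ) (t : T) (e : ℤ), (∀ j : Fin 3, Sp y (ser c t j)) →
      (∀ n : ℕ, ((n : ℚ) + 2) ^ 2 * c (n + 2) + (11 * ((n : ℚ) + 1) ^ 2 + 11 * ((n : ℚ) + 1) + 3) * c (n + 1) -
        ((n : ℚ) + 1) ^ 2 * c n = 0) →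
      c 1 = -3 * c 0 + e → ∀ j : Fin 3, Sp y ((TQ q : ℚ⟦X⟧) * d⁄dX ℚ (ser c t j)) := by
    intro c t e hs hrec he j
    rw [hTQ, theta_ser]
    by_cases hj : (j : ℕ) + 1 < 3
    · have := Sp.int (q : ℤ) (u := (q : ℚ)) (by push_cast; rfl) (hs ⟨(j : ℕ) + 1, hj⟩)
      exact this
    · have hj4 : (j : ℕ) + 1 = 3 := by have := j.2; omega
      rw [hj4]
      exact hlast c t e hs hrec he
  have hsys : Syst q (fam3 a b T) :=
    { hq := hq1
      ef := by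
        rintro (⟨t, j⟩ | ⟨t, j⟩)
        · exact EF_ser ha _ _
        · exact EF_ser hb _ _
      der := by
        rintro (⟨t, j⟩ | ⟨t, j⟩)
        · exact hder a t 0 (hya t) hab.rec_a (by rw [hab.a0, hab.a1]; norm_num) j
        · exact hder b t (-5) (hyb t) hab.rec_b (by rw [hab.b0, hab.b1]; norm_num) j }
  exact ⟨q, hsys⟩


theorem t_SSE3 : S_SSE3 := by
  classical
  intro a b hab ha hb T _ hind
  obtain ⟨q, hq⟩ := syst_fam3 hab ha hb T
  have h := alg_ev (Syst_exp hq) hind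
  convert h using 1
  funext o
  rcases o with _ | s
  · exact ev_exp.symm
  · rcases s with ⟨t, j⟩ | ⟨t, j⟩
    · exact val_ev a t j
    · exact val_ev b t j

end Pool.Agent.E8helper75.AZ
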