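import Pool.Agent.E8helper42.AZ.Stm5
import Pool.Agent.E8helper75.AZ.Sse3

/-!
# The theorem of Siegel and Shidlovskii, everything together
-/

set_option autoImplicit false
set_option linter.unusedSectionVars false

open PowerSeries Finset.HasAntidiagonal

namespace Pool.Agent.E8helper75.AZ

open Pool.Agent.R352.E Pool.Agent.Y113 Pool.Agent.E8helper42.AZ Pool.Agent.E8helper65.AZ

lemma Syst_mul {σ : Type} [Fintype σ] {q : ℕ} {f : σ → ℚ⟦X⟧} (R : Syst q f) {r : ℕ} (hr : 1 ≤ r) :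
    Syst (q * r) f where
  hq := Nat.mul_pos R.hq hr
  ef := R.ef
  der := by
    intro s
    have h := Sp.int (r : ℤ) (u := (r : ℚ)) (by push_cast; rfl) (R.der s)
    have e : (TQ (q * r) : ℚ⟦X⟧) * d⁄dX ℚ (f s) =
        PowerSeries.C (r : ℚ) * ((TQ q : ℚ⟦X⟧) * d⁄dX ℚ (f s)) := by
      rw [TQ_eq, TQ_eq]
      have : (PowerSeries.C (r : ℚ) : ℚ⟦X⟧) = (r : ℚ⟦X⟧) := by simp
      rw [this]
      push_cast
      ring
    rw [e]
    exact h

lemma Syst_sum {σ τ : Type} [Fintype σ] [Fintype τ] {q : ℕ} {f : σ → ℚ⟦X⟧} {g : τ → ℚ⟦X⟧}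
    (R : Syst q f) (R' : Syst q g) : Syst q (Sum.elim f g) where
  hq := R.hq
  ef := by
    rintro (s | s)
    · exact R.ef s
    · exact R'.ef s
  der := by
    rintro (s | s)
    · refine Sp_trans ?_ (R.der s)
      rintro (_ | s')
      · exact Sp.mem (y := fun o : Option (σ ⊕ τ) => o.elim 1 (Sum.elim f g)) none
      · exact Sp.mem (y := fun o : Option (σ ⊕ τ) => o.elim 1 (Sum.elim f g)) (some (Sum.inl s'))
    · refine Sp_trans ?_ (R'.der s)
      rintro (_ | s')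
      · exact Sp.mem (y := fun o : Option (σ ⊕ τ) => o.elim 1 (Sum.elim f g)) none
      · exact Sp.mem (y := fun o : Option (σ ⊕ τ) => o.elim 1 (Sum.elim f g)) (some (Sum.inr s'))

theorem t_SSEM : S_SSEM := by
  classical
  intro a b a' b' hab ha hb hab' ha' hb' T T' _ _ hind
  obtain ⟨q, hq⟩ := syst_fam hab ha hb T
  obtain ⟨r, hr⟩ := syst_fam3 hab' ha' hb' T'
  have h1 := Syst_mul hq hr.hq
  have h2 := Syst_mul hr hq.hq
  rw [mul_comm] at h2
  have h := alg_ev (Syst_exp (Syst_sum h1 h2)) hind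
  convert h using 1
  funext o
  rcases o with _ | s
  · exact ev_exp.symm
  · rcases s with (⟨t, j⟩ | ⟨t, j⟩) | (⟨t, j⟩ | ⟨t, j⟩)
    · exact val_ev a t j
    · exact val_ev b t j
    · exact val_ev a' t j
    · exact val_ev b' t j

end Pool.Agent.E8helper75.AZ
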