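import Pool.Agent.E8helper42.AZ.Stm6
import Pool.Agent.E8helper41.AZ.Dv
import Pool.Agent.E8helper41.AZ.Iv

/-!
# Project AZ: values of the derivatives, all together
-/

set_option autoImplicit false
set_option linter.unusedSectionVars false

namespace Pool.Agent.E8helper75.AZ

open Pool.Agent.E8helper42.AZ Pool.Agent.E8helper41.AZ MvPolynomial

/-- the inverse transformation -/
def bw3 {M : Type} [AddCommGroup M] [Module ℚ M] (t : ℚ) (x : Fin 3 → M) : Fin 3 → M :=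
  ![x 0, t⁻¹ • x 1, (t⁻¹ ^ 2) • (x 2 - x 1)]

/-- the transformation -/
def fw3 {M : Type} [AddCommGroup M] [Module ℚ M] (t : ℚ) (x : Fin 3 → M) : Fin 3 → M :=
  ![x 0, t • x 1, t ^ 2 • x 2 + t • x 1]

lemma bw_fw3 {M : Type} [AddCommGroup M] [Module ℚ M] {t : ℚ} (ht : t ≠ 0) (x : Fin 3 → M) :
    bw3 t (fw3 t x) = x := by
  funext j
  fin_cases j
  · rfl
  · simp only [bw3, fw3, Fin.mk_one, Matrix.cons_val_one, Matrix.cons_val_zero]
    match_scalars
    field_simp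
  · show (t⁻¹ ^ 2) • ((t ^ 2 • x 2 + t • x 1) - t • x 1) = x 2
    match_scalars <;> field_simp
    ring

lemma map_bw3 {M N : Type} [AddCommGroup M] [Module ℚ M] [AddCommGroup N] [Module ℚ N]
    (f : M →ₗ[ℚ] N) (t : ℚ) (x : Fin 3 → M) (j : Fin 3) :
    f (bw3 t x j) = bw3 t (fun i => f (x i)) j := by
  fin_cases j
  · rfl
  · show f (t⁻¹ • x 1) = t⁻¹ • f (x 1)
    rw [map_smul]
  · show f ((t⁻¹ ^ 2) • (x 2 - x 1)) = (t⁻¹ ^ 2) • (f (x 2) - f (x 1))
    rw [map_smul, map_sub]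

lemma dv_eq3 (c : ℕ → ℚ) (hc : EFc c) {t : ℚ} (ht : t ≠ 0) (j : Fin 3) :
    dv c t j = bw3 t (fun i : Fin 3 => val c t i) j := by
  fin_cases j
  · exact dv_eq c hc ht 0
  · exact dv_eq c hc ht 1
  · exact dv_eq c hc ht 2

/-- the substitution -/
noncomputable def sbG (T T' : Finset ℚ)
    (g : ℚ → (Fin 4 → MvPolynomial (IxG T T') ℚ) → Fin 4 → MvPolynomial (IxG T T') ℚ)
    (g' : ℚ → (Fin 3 → MvPolynomial (IxG T T') ℚ) → Fin 3 → MvPolynomial (IxG T T') ℚ)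
    (o : IxG T T') : MvPolynomial (IxG T T') ℚ :=
  o.elim (X none) (Sum.elim
    (Sum.elim (fun p => g (p.1 : ℚ) (fun i => X (some (Sum.inl (Sum.inl (p.1, i))))) p.2)
      (fun p => g (p.1 : ℚ) (fun i => X (some (Sum.inl (Sum.inr (p.1, i))))) p.2))
    (Sum.elim (fun p => g' (p.1 : ℚ) (fun i => X (some (Sum.inr (Sum.inl (p.1, i))))) p.2)
      (fun p => g' (p.1 : ℚ) (fun i => X (some (Sum.inr (Sum.inr (p.1, i))))) p.2)))

lemma ev_bwG {T T' : Finset ℚ} {R : Type} [CommRing R] [Algebra ℚ R] (x : IxG T T' → R)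
    (o : IxG T T') : aeval x (sbG T T' bw bw3 o) = o.elim (x none) (Sum.elim
    (Sum.elim (fun p => bw (p.1 : ℚ) (fun i => x (some (Sum.inl (Sum.inl (p.1, i))))) p.2)
      (fun p => bw (p.1 : ℚ) (fun i => x (some (Sum.inl (Sum.inr (p.1, i))))) p.2))
    (Sum.elim (fun p => bw3 (p.1 : ℚ) (fun i => x (some (Sum.inr (Sum.inl (p.1, i))))) p.2)
      (fun p => bw3 (p.1 : ℚ) (fun i => x (some (Sum.inr (Sum.inr (p.1, i))))) p.2))) := by
  rcases o with _ | (p | p) | (p | p)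
  · simp [sbG]
  · have h := map_bw (aeval x : MvPolynomial (IxG T T') ℚ →ₐ[ℚ] R).toLinearMap (p.1 : ℚ)
      (fun i => X (some (Sum.inl (Sum.inl (p.1, i))))) p.2
    simp only [AlgHom.toLinearMap_apply, aeval_X] at h
    exact h
  · have h := map_bw (aeval x : MvPolynomial (IxG T T') ℚ →ₐ[ℚ] R).toLinearMap (p.1 : ℚ)
      (fun i => X (some (Sum.inl (Sum.inr (p.1, i))))) p.2
    simp only [AlgHom.toLinearMap_apply, aeval_X] at h
    exact h
  · have h := map_bw3 (aeval x : MvPolynomial (IxG T T') ℚ →ₐ[ℚ] R).toLinearMap (p.1 : ℚ)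
      (fun i => X (some (Sum.inr (Sum.inl (p.1, i))))) p.2
    simp only [AlgHom.toLinearMap_apply, aeval_X] at h
    exact h
  · have h := map_bw3 (aeval x : MvPolynomial (IxG T T') ℚ →ₐ[ℚ] R).toLinearMap (p.1 : ℚ)
      (fun i => X (some (Sum.inr (Sum.inr (p.1, i))))) p.2
    simp only [AlgHom.toLinearMap_apply, aeval_X] at h
    exact h

lemma inv_sbG {T T' : Finset ℚ} (hT : ∀ t ∈ T, t ≠ 0) (hT' : ∀ t ∈ T', t ≠ 0)
    (P : MvPolynomial (IxG T T') ℚ) :
    aeval (sbG T T' fw fw3) (aeval (sbG T T' bw bw3) P) = P := by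
  have h : (aeval (sbG T T' fw fw3) : MvPolynomial (IxG T T') ℚ →ₐ[ℚ]
      MvPolynomial (IxG T T') ℚ).comp (aeval (sbG T T' bw bw3)) = AlgHom.id ℚ _ := by
    apply MvPolynomial.algHom_ext
    intro o
    rw [AlgHom.comp_apply, aeval_X, AlgHom.id_apply, ev_bwG]
    rcases o with _ | (p | p) | (p | p)
    · rfl
    · exact congrFun (bw_fw (hT p.1 p.1.2)
        (fun i => (X (some (Sum.inl (Sum.inl (p.1, i)))) : MvPolynomial (IxG T T') ℚ))) p.2
    · exact congrFun (bw_fw (hT p.1 p.1.2)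
        (fun i => (X (some (Sum.inl (Sum.inr (p.1, i)))) : MvPolynomial (IxG T T') ℚ))) p.2
    · exact congrFun (bw_fw3 (hT' p.1 p.1.2)
        (fun i => (X (some (Sum.inr (Sum.inl (p.1, i)))) : MvPolynomial (IxG T T') ℚ))) p.2
    · exact congrFun (bw_fw3 (hT' p.1 p.1.2)
        (fun i => (X (some (Sum.inr (Sum.inr (p.1, i)))) : MvPolynomial (IxG T T') ℚ))) p.2
  exact DFunLike.congr_fun h P

theorem t_DVM : S_DVM := by
  intro a b a' b' ha hb ha' hb' w T T' hT hT' hv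
  rw [algebraicIndependent_iff]
  intro P hP
  have h : (aeval (fun o : IxG T T' => o.elim w
      (Sum.elim (fun s => s.elim (fun p => dv a p.1 p.2) (fun p => dv b p.1 p.2))
        (fun s => s.elim (fun p => dv a' p.1 p.2) (fun p => dv b' p.1 p.2)))) :
        MvPolynomial (IxG T T') ℚ →ₐ[ℚ] ℝ) =
      (aeval (fun o : IxG T T' => o.elim w (Sum.elim (vals a b T) (vals3 a' b' T'))) :
        MvPolynomial (IxG T T') ℚ →ₐ[ℚ] ℝ).comp (aeval (sbG T T' bw bw3)) := by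
    apply MvPolynomial.algHom_ext
    intro o
    rw [AlgHom.comp_apply, aeval_X, aeval_X, ev_bwG]
    rcases o with _ | (p | p) | (p | p)
    · rfl
    · exact dv_eq a ha (hT p.1 p.1.2) p.2
    · exact dv_eq b hb (hT p.1 p.1.2) p.2
    · exact dv_eq3 a' ha' (hT' p.1 p.1.2) p.2
    · exact dv_eq3 b' hb' (hT' p.1 p.1.2) p.2
  rw [h, AlgHom.comp_apply] at hP
  have h2 := (algebraicIndependent_iff.1 hv) _ hP
  rw [← inv_sbG hT hT' P, h2, map_zero]

theorem t_IV3 : S_IV3 := by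
  intro a b ha hb hJ j t
  unfold dv
  rw [← tsum_mul_left, ← ((summ_dv a ha j t).mul_left _).tsum_sub (summ_dv b hb j t)]
  apply tsum_congr
  intro n
  rw [hJ (n + j)]
  ring

theorem t_INF : S_INF := by
  intro a b a' b' w key
  classical
  apply algebraicIndependent_of_finite_type
  intro s hs
  set pt : Option (({p : ℕ × ℚ // p.1 < 4 ∧ 0 < p.2} ⊕ {p : ℕ × ℚ // p.1 < 4 ∧ 0 < p.2}) ⊕
      ({p : ℕ × ℚ // p.1 < 3 ∧ 0 < p.2} ⊕ {p : ℕ × ℚ // p.1 < 3 ∧ 0 < p.2})) → ℚ :=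
    fun o => o.elim 1 (Sum.elim (Sum.elim (fun p => p.1.2) (fun p => p.1.2))
      (Sum.elim (fun p => p.1.2) (fun p => p.1.2))) with hpt
  set T : Finset ℚ := hs.toFinset.image pt with hT
  have hTpos : ∀ t ∈ T, 0 < t := by
    intro t ht
    obtain ⟨p, -, rfl⟩ := Finset.mem_image.mp ht
    rcases p with _ | (p | p) | (p | p)
    · exact one_pos
    · exact p.2.2
    · exact p.2.2
    · exact p.2.2
    · exact p.2.2
  have hmem : ∀ v ∈ s, pt v ∈ T := fun v hv => Finset.mem_image_of_mem _ (hs.mem_toFinset.2 hv)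
  let e : s → IxG T T := fun v =>
    match v with
    | ⟨none, _⟩ => none
    | ⟨some (Sum.inl (Sum.inl p)), h⟩ => some (Sum.inl (Sum.inl (⟨p.1.2, hmem _ h⟩, ⟨p.1.1, p.2.1⟩)))
    | ⟨some (Sum.inl (Sum.inr p)), h⟩ => some (Sum.inl (Sum.inr (⟨p.1.2, hmem _ h⟩, ⟨p.1.1, p.2.1⟩)))
    | ⟨some (Sum.inr (Sum.inl p)), h⟩ => some (Sum.inr (Sum.inl (⟨p.1.2, hmem _ h⟩, ⟨p.1.1, p.2.1⟩)))
    | ⟨some (Sum.inr (Sum.inr p)), h⟩ => some (Sum.inr (Sum.inr (⟨p.1.2, hmem _ h⟩, ⟨p.1.1, p.2.1⟩)))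
  have he : Function.Injective e := by
    rintro ⟨v, hv⟩ ⟨u, hu⟩ h
    rcases v with _ | (v | v) | (v | v) <;> rcases u with _ | (u | u) | (u | u) <;>
      first
        | rfl
        | (exfalso; simp [e] at h; done)
        | (simp only [e, Option.some.injEq, Sum.inl.injEq, Sum.inr.injEq, Prod.mk.injEq,
            Fin.mk.injEq] at h
           have : v = u := Subtype.ext (Prod.ext h.2 (congrArg (fun x : T => (x : ℚ)) h.1))
           subst this; rfl)
  have h1 := (key T T hTpos hTpos).comp e he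
  convert h1 using 1
  funext v
  obtain ⟨v, hv⟩ := v
  rcases v with _ | (v | v) | (v | v) <;> rfl

end Pool.Agent.E8helper75.AZ
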