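import Pool.Agent.E8helper42.AZ.Stm4
import Pool.Agent.E8helper65.AZ.SS

/-!
# The theorem of Siegel and Shidlovskii with the exponential function added
-/

set_option autoImplicit false
set_option linter.unusedSectionVars false

open PowerSeries Finset.HasAntidiagonal

namespace Pool.Agent.E8helper75.AZ

open Pool.Agent.R352.E Pool.Agent.Y113 Pool.Agent.E8helper42.AZ Pool.Agent.E8helper65.AZ

lemma cf_exp (m : ℕ) : cf m (PowerSeries.exp ℚ) = 1 := by
  rw [cf, PowerSeries.coeff_exp]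
  have : (m.factorial : ℚ) ≠ 0 := by exact_mod_cast m.factorial_ne_zero
  simp [this]

lemma EF_exp : EF (PowerSeries.exp ℚ) :=
  ⟨1, le_rfl, fun m => by rw [cf_exp]; simp,
    fun m => ⟨1, one_pos, by simp, fun i _ => ⟨1, by rw [cf_exp]; simp⟩⟩⟩

lemma ev_exp : ev 1 (PowerSeries.exp ℚ) = Real.exp 1 := by
  rw [ev, Real.exp_eq_exp_ℝ, NormedSpace.exp_eq_tsum_div]
  refine tsum_congr fun n => ?_
  rw [PowerSeries.coeff_exp]
  simp

lemma Sp_trans {ι κ : Type} [Fintype ι] [Fintype κ] {y : ι → ℚ⟦X⟧} {y' : κ → ℚ⟦X⟧}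
    (h : ∀ i, Sp y' (y i)) {g : ℚ⟦X⟧} (hg : Sp y g) : Sp y' g := by
  obtain ⟨c, hc⟩ := hg
  rw [hc]
  exact Sp.sum _ _ fun i _ => (h i).mul (c i)

/-- the exponential function may be added to a system -/
theorem Syst_exp {σ : Type} [Fintype σ] {q : ℕ} {f : σ → ℚ⟦X⟧} (R : Syst q f) :
    Syst q (fun o : Option σ => o.elim (PowerSeries.exp ℚ) f) where
  hq := R.hq
  ef := by
    rintro (_ | s)
    · exact EF_exp
    · exact R.ef s
  der := by
    rintro (_ | s)
    · simp only [Option.elim_none]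
      have h0 : Sp (fun o : Option (Option σ) => o.elim 1 fun o : Option σ =>
          o.elim (PowerSeries.exp ℚ) f) (PowerSeries.exp ℚ) :=
        Sp.mem (y := fun o : Option (Option σ) => o.elim 1 fun o : Option σ =>
          o.elim (PowerSeries.exp ℚ) f) (some none)
      have h1 := Sp.int (q : ℤ) (u := (q : ℚ)) (by push_cast; rfl) (Sp.X h0)
      have h2 : d⁄dX ℚ (PowerSeries.exp ℚ) = PowerSeries.exp ℚ := by
        ext m
        rw [coeff_derivative, PowerSeries.coeff_exp, PowerSeries.coeff_exp, Nat.factorial_succ]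
        have : (m.factorial : ℚ) ≠ 0 := by exact_mod_cast m.factorial_ne_zero
        have h3 : (m : ℚ) + 1 ≠ 0 := by positivity
        simp only [map_div₀, map_one, Nat.cast_mul, Nat.cast_add, Nat.cast_one, map_natCast]
        push_cast
        field_simp
      rw [h2]
      have e : (TQ q : ℚ⟦X⟧) * PowerSeries.exp ℚ =
          PowerSeries.C (q : ℚ) * (PowerSeries.X * PowerSeries.exp ℚ) := by
        rw [TQ_eq, mul_assoc]
        congr 1
      rw [e]
      exact h1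
    · simp only [Option.elim_some]
      refine Sp_trans ?_ (R.der s)
      rintro (_ | s')
      · exact Sp.mem (y := fun o : Option (Option σ) => o.elim 1 fun o : Option σ =>
          o.elim (PowerSeries.exp ℚ) f) none
      · exact Sp.mem (y := fun o : Option (Option σ) => o.elim 1 fun o : Option σ =>
          o.elim (PowerSeries.exp ℚ) f) (some (some s'))

/-- the system of the project -/
lemma syst_fam {a b : ℕ → ℚ} (hab : AperyPair a b) (ha : EFc a) (hb : EFc b) (T : Finset ℚ) :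
    ∃ q : ℕ, Syst q (fam a b T) := by
  classical
  obtain ⟨q, hq⟩ : ∃ q : ℕ, q = (∏ t ∈ T, t.den) ^ 2 := ⟨_, rfl⟩
  have hP : 0 < ∏ t ∈ T, t.den := Finset.prod_pos fun t _ => t.den_pos
  have hq1 : 1 ≤ q := by rw [hq]; exact Nat.pos_of_ne_zero (pow_ne_zero _ hP.ne')
  -- integrality
  have hint1 : ∀ t ∈ T, ∃ z : ℤ, (q : ℚ) * t = z := by
    intro t ht
    refine ⟨(∏ t ∈ T, t.den : ℕ) * ((∏ s ∈ T.erase t, s.den : ℕ) * t.num), ?_⟩
    have h1 : (∏ s ∈ T, s.den : ℕ) = t.den * ∏ s ∈ T.erase t, s.den :=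
      (Finset.mul_prod_erase T (fun s => s.den) ht).symm
    rw [hq]
    push_cast
    rw [sq]
    have h2 : ((∏ s ∈ T, (s.den : ℚ))) * t = (∏ s ∈ T.erase t, (s.den : ℚ)) * t.num := by
      have h3 : (∏ s ∈ T, (s.den : ℚ)) = t.den * ∏ s ∈ T.erase t, (s.den : ℚ) := by
        exact_mod_cast congrArg (Nat.cast (R := ℚ)) h1
      rw [h3]
      have h4 : (t.den : ℚ) * t = t.num := Rat.den_mul_eq_num t
      rw [← h4]; ring
    rw [mul_assoc, h2]
  have hint2 : ∀ t ∈ T, ∃ z : ℤ, (q : ℚ) * t ^ 2 = z := by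
    intro t ht
    refine ⟨((∏ s ∈ T.erase t, s.den : ℕ) * t.num) ^ 2, ?_⟩
    have h1 : (∏ s ∈ T, s.den : ℕ) = t.den * ∏ s ∈ T.erase t, s.den :=
      (Finset.mul_prod_erase T (fun s => s.den) ht).symm
    have h2 : ((∏ s ∈ T, (s.den : ℚ))) * t = (∏ s ∈ T.erase t, (s.den : ℚ)) * t.num := by
      have h3 : (∏ s ∈ T, (s.den : ℚ)) = t.den * ∏ s ∈ T.erase t, (s.den : ℚ) := by
        exact_mod_cast congrArg (Nat.cast (R := ℚ)) h1
      rw [h3]
      have h4 : (t.den : ℚ) * t = t.num := Rat.den_mul_eq_num t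
      rw [← h4]; ring
    rw [hq]
    push_cast
    rw [← mul_pow, h2]
  have hTQ : ∀ g : ℚ⟦X⟧, (TQ q : ℚ⟦X⟧) * d⁄dX ℚ g = C (q : ℚ) * (X * d⁄dX ℚ g) := by
    intro g
    have h1 : (TQ q : ℚ⟦X⟧) = (q : ℚ⟦X⟧) * X := TQ_eq
    rw [h1, mul_assoc]
    congr 1
  set y : Option ((T × Fin 4) ⊕ (T × Fin 4)) → ℚ⟦X⟧ := fun o => o.elim 1 (fam a b T) with hy
  have hy1 : Sp y 1 := Sp.mem (y := y) none
  have hya : ∀ (t : T) (j : Fin 4), Sp y (ser a t j) := fun t j =>
    Sp.mem (y := y) (some (Sum.inl (t, j)))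
  have hyb : ∀ (t : T) (j : Fin 4), Sp y (ser b t j) := fun t j =>
    Sp.mem (y := y) (some (Sum.inr (t, j)))
  -- the last derivative
  have hlast : ∀ (c : ℕ → ℚ) (t : T) (e : ℤ), (∀ j : Fin 4, Sp y (ser c t j)) →
      (∀ n : ℕ, ((n : ℚ) + 2) ^ 3 * c (n + 2) - cP ((n : ℚ) + 1) * c (n + 1) + ((n : ℚ) + 1) ^ 3 * c n = 0) →
      c 1 = 5 * c 0 + e → Sp y (C (q : ℚ) * ser c t 4) := by
    intro c t e hs hrec he
    obtain ⟨z1, hz1⟩ := hint1 t.1 t.2
    obtain ⟨z2, hz2⟩ := hint2 t.1 t.2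
    have hN : ∀ (n : ℕ) {g : ℚ⟦X⟧}, Sp y g → Sp y ((n : ℚ⟦X⟧) * g) := by
      intro n g hg
      have h := Sp.int (n : ℤ) (u := (n : ℚ)) (by push_cast; rfl) hg
      have e : (PowerSeries.C (n : ℚ) : ℚ⟦X⟧) = (n : ℚ⟦X⟧) := by simp
      rwa [e] at h
    have hs0 := hs 0
    have hs1 := hs 1
    have hs2 := hs 2
    have hs3 := hs 3
    have e1 : Sp y (34 * ser c t 3 + 51 * ser c t 2 + 27 * ser c t 1 + 5 * ser c t 0) := by
      have k3 := hN 34 hs3
      have k2 := hN 51 hs2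
      have k1 := hN 27 hs1
      have k0 := hN 5 hs0
      exact_mod_cast ((k3.add k2).add k1).add k0
    have e2 : Sp y (ser c t 2 + 2 * ser c t 1 + ser c t 0) := by
      have k1 := hN 2 hs1
      exact_mod_cast (hs2.add k1).add hs0
    have e3 : C (q : ℚ) * ser c t 4 =
        C ((q : ℚ) * t) * (X * (34 * ser c t 3 + 51 * ser c t 2 + 27 * ser c t 1 + 5 * ser c t 0)) +
        C (-((q : ℚ) * (t : ℚ) ^ 2)) * (X * (X * (ser c t 2 + 2 * ser c t 1 + ser c t 0))) +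
        C ((e : ℚ) * ((q : ℚ) * t)) * (X * 1) := by
      rw [ser_four c t e hrec he]
      simp only [map_mul, map_neg, map_pow]
      ring
    rw [e3]
    refine ((Sp.int z1 hz1 (Sp.X e1)).add (Sp.int (-z2) (by rw [hz2]; push_cast; ring)
      (Sp.X (Sp.X e2)))).add (Sp.int (e * z1) (by rw [hz1]; push_cast; ring) (Sp.X hy1))
  have hder : ∀ (c : ℕ → ℚ) (t : T) (e : ℤ), (∀ j : Fin 4, Sp y (ser c t j)) →
      (∀ n : ℕ, ((n : ℚ) + 2) ^ 3 * c (n + 2) - cP ((n : ℚ) + 1) * c (n + 1) + ((n : ℚ) + 1) ^ 3 * c n = 0) →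
      c 1 = 5 * c 0 + e → ∀ j : Fin 4, Sp y ((TQ q : ℚ⟦X⟧) * d⁄dX ℚ (ser c t j)) := by
    intro c t e hs hrec he j
    rw [hTQ, theta_ser]
    by_cases hj : (j : ℕ) + 1 < 4
    · have := Sp.int (q : ℤ) (u := (q : ℚ)) (by push_cast; rfl) (hs ⟨(j : ℕ) + 1, hj⟩)
      exact this
    · have hj4 : (j : ℕ) + 1 = 4 := by have := j.2; omega
      rw [hj4]
      exact hlast c t e hs hrec he
  have hsys : Syst q (fam a b T) :=
    { hq := hq1
      ef := by
        rintro (⟨t, j⟩ | ⟨t, j⟩)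
        · exact EF_ser ha _ _
        · exact EF_ser hb _ _
      der := by
        rintro (⟨t, j⟩ | ⟨t, j⟩)
        · exact hder a t 0 (hya t) hab.rec_a (by rw [hab.a0, hab.a1]; norm_num) j
        · exact hder b t 6 (hyb t) hab.rec_b (by rw [hab.b0, hab.b1]; norm_num) j }
  exact ⟨q, hsys⟩

lemma val_ev (c : ℕ → ℚ) (t : ℚ) (j : ℕ) : val c t j = ev 1 (ser c t j) := by
  rw [val, ev]
  refine tsum_congr fun n => ?_
  rw [ser, coeff_mk]
  push_cast
  rw [div_one, one_pow, mul_one]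

theorem t_SSE : S_SSE := by
  classical
  intro a b hab ha hb T _ hind
  obtain ⟨q, hq⟩ := syst_fam hab ha hb T
  have h := alg_ev (Syst_exp hq) hind
  convert h using 1
  funext o
  rcases o with _ | s
  · exact ev_exp.symm
  · rcases s with ⟨t, j⟩ | ⟨t, j⟩
    · exact val_ev a t j
    · exact val_ev b t j

end Pool.Agent.E8helper75.AZ
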